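import Pool.Agent.W692.GP.L1b

/-! Project GP of helper844: the doubling step (S_L1). -/

set_option autoImplicit false

open Finset MeasureTheory ProbabilityTheory Filter Topology
open scoped ENNReal

namespace Pool.Agent.W692.GP

open Pool.Agent.W844.GP
open Pool.Agent.W844.VG (V stp nm)

variable {d : ℕ}

theorem exists_K (d : ℕ) (ν : Measure ℝ) [IsProbabilityMeasure ν] :
    ∃ K : ℝ, 0 ≤ K ∧ ν (Set.Iio (-K)) ≤ q0 d := by
  have hq : (0 : ℝ) < Real.exp (-8) / 5 ^ d := by positivity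
  have h := (tendsto_cdf_atBot ν).eventually (gt_mem_nhds hq)
  obtain ⟨x, hx, hx0⟩ := (h.and (eventually_le_atBot 0)).exists
  refine ⟨-x, by linarith, ?_⟩
  rw [neg_neg]
  calc ν (Set.Iio x) ≤ ν (Set.Iic x) := measure_mono Set.Iio_subset_Iic_self
    _ = ENNReal.ofReal (cdf ν x) := (ofReal_cdf ν x).symm
    _ ≤ q0 d := ENNReal.ofReal_le_ofReal hx.le

theorem half_le (d : ℕ) (ν : Measure ℝ) [IsProbabilityMeasure ν] (K : ℝ)
    (h : ν (Set.Iio (-K)) ≤ q0 d) : 2⁻¹ ≤ ν (Set.Ici (-K)) := by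
  have h1 : ν (Set.Iio (-K)) + ν (Set.Ici (-K)) = 1 := by
    have h2 := measure_add_measure_compl (μ := ν) (measurableSet_Iio (a := -K))
    rwa [Set.compl_Iio, measure_univ] at h2
  have h3 : q0 d ≤ 2⁻¹ := by
    have e : (2⁻¹ : ℝ≥0∞) = ENNReal.ofReal (2⁻¹) := by
      rw [ENNReal.ofReal_inv_of_pos (by norm_num)]; simp
    rw [e]
    refine ENNReal.ofReal_le_ofReal ?_
    have a1 : Real.exp (-8) ≤ 2⁻¹ := by
      rw [Real.exp_neg]
      refine inv_anti₀ (by norm_num) ?_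
      have := Real.add_one_le_exp (8 : ℝ)
      linarith
    have a2 : (1 : ℝ) ≤ 5 ^ d := one_le_pow₀ (by norm_num)
    calc Real.exp (-8) / 5 ^ d ≤ Real.exp (-8) := div_le_self (Real.exp_pos _).le a2
      _ ≤ _ := a1
  have h4 : (2⁻¹ : ℝ≥0∞) + 2⁻¹ ≤ 2⁻¹ + ν (Set.Ici (-K)) := by
    rw [ENNReal.inv_two_add_inv_two, ← h1]
    exact add_le_add_left (h.trans h3) _
  exact ENNReal.le_of_add_le_add_left (by simp) h4

/-- corner of a cell -/
def cor (g : ℕ) (c : Fin d → ℕ) : V d := fun j => (g : ℤ) * c j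

theorem in_cell {g M0 : ℕ} (hg : 1 ≤ g) {x : V d} (h0 : ∀ j, 0 ≤ x j) (h1 : ∀ j, x j < g * M0) :
    ∃ c ∈ Fintype.piFinset fun _ : Fin d => range M0, x ∈ cell (cor g c) g := by
  refine ⟨fun j => (x j).toNat / g, ?_, ?_⟩
  · rw [Fintype.mem_piFinset]
    intro j
    rw [Finset.mem_range]
    have := h0 j
    have := h1 j
    refine Nat.div_lt_of_lt_mul ?_
    zify
    rw [Int.toNat_of_nonneg (h0 j)]
    exact h1 j
  · rw [mem_cell]
    intro j
    unfold cor
    have e1 : ((x j).toNat : ℤ) = x j := Int.toNat_of_nonneg (h0 j)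
    have e2 : g * ((x j).toNat / g) + (x j).toNat % g = (x j).toNat := Nat.div_add_mod _ _
    have e3 : (x j).toNat % g < g := Nat.mod_lt _ (by omega)
    zify at e2 e3
    rw [e1] at e2 e3
    push_cast
    rw [e1]
    constructor
    · have : 0 ≤ x j % g := Int.emod_nonneg _ (by omega)
      linarith
    · linarith

theorem head_mem {i : Fin d} {l : List (V d)} {x y : V d} (h : WB i l x y) : x ∈ l ∧ y ∈ l :=
  ⟨List.mem_of_head? h.2.1, List.mem_of_getLast? h.2.2.1⟩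

theorem pigeon {i : Fin d} {ν : Measure ℝ} [IsProbabilityMeasure ν] {C N g t : ℕ} {δ : ℝ}
    (hg : 1 ≤ g) (hδ : 0 < δ) (ht : t ≤ (N + 1) * g)
    (h : ENNReal.ofReal δ ≤ law ν d {w | EE w i C t}) :
    ∃ c c' : Fin d → ℕ, c i ≤ c' i ∧
      ENNReal.ofReal (δ / ((Fintype.piFinset fun _ : Fin d => range ((N + 1) * C)).card ^ 2 + 1)) ≤
        law ν d (⋃ x ∈ cell (cor g c) g, ⋃ y ∈ cell (cor g c') g, {w | pp w i t x y}) := by
  set I := Fintype.piFinset fun _ : Fin d => range ((N + 1) * C) with hI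
  have hsub : {w : V d → ℝ | EE w i C t} ⊆ ⋃ c ∈ I, ⋃ c' ∈ I,
      (⋃ x ∈ cell (cor g c) g, ⋃ y ∈ cell (cor g c') g, {w | pp w i t x y}) := by
    rintro w ⟨l, x, y, hWB, hC, h1, h2, h3⟩
    obtain ⟨hx, hy⟩ := head_mem hWB
    have hb : ∀ z : V d, z ∈ Cube (0 : V d) (C * t) →
        ∃ c ∈ I, z ∈ cell (cor g c) g := by
      intro z hz
      refine in_cell hg (fun j => ?_) (fun j => ?_)
      · have := (hz j).1
        simpa using this
      · have h4 := (hz j).2
        rw [Pi.zero_apply, zero_add] at h4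
        refine h4.trans_le ?_
        have h5 : C * t ≤ g * ((N + 1) * C) := by
          calc C * t ≤ C * ((N + 1) * g) := Nat.mul_le_mul_left _ ht
            _ = g * ((N + 1) * C) := by ring
        exact_mod_cast h5
    obtain ⟨c, hc, hxc⟩ := hb x (hC x hx)
    obtain ⟨c', hc', hyc⟩ := hb y (hC y hy)
    simp only [Set.mem_iUnion]
    exact ⟨c, hc, c', hc', x, hxc, y, hyc, l, ⟨hWB, h1, h2⟩, h3⟩
  have hsum : ENNReal.ofReal δ ≤ ∑ c ∈ I, ∑ c' ∈ I,
      law ν d (⋃ x ∈ cell (cor g c) g, ⋃ y ∈ cell (cor g c') g, {w | pp w i t x y}) :=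
    (h.trans (measure_mono hsub)).trans ((measure_biUnion_finset_le _ _).trans
      (Finset.sum_le_sum fun c _ => measure_biUnion_finset_le _ _))
  have hM : (0 : ℝ) < (I.card : ℝ) ^ 2 + 1 := by positivity
  obtain ⟨c, hc, c', hc', hbig⟩ : ∃ c ∈ I, ∃ c' ∈ I, ENNReal.ofReal (δ / ((I.card : ℝ) ^ 2 + 1)) ≤
      law ν d (⋃ x ∈ cell (cor g c) g, ⋃ y ∈ cell (cor g c') g, {w | pp w i t x y}) := by
    by_contra hcon
    push Not at hcon
    have h1 : ENNReal.ofReal δ ≤ ∑ c ∈ I, ∑ c' ∈ I, ENNReal.ofReal (δ / ((I.card : ℝ) ^ 2 + 1)) :=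
      hsum.trans (Finset.sum_le_sum fun c hc => Finset.sum_le_sum fun c' hc' =>
        (hcon c hc c' hc').le)
    rw [Finset.sum_const, Finset.sum_const, nsmul_eq_mul, nsmul_eq_mul, ← mul_assoc,
      ← ENNReal.ofReal_natCast, ← ENNReal.ofReal_mul (by positivity),
      ← ENNReal.ofReal_mul (by positivity), ENNReal.ofReal_le_ofReal_iff (by positivity)] at h1
    have h2 : (I.card : ℝ) * I.card * (δ / ((I.card : ℝ) ^ 2 + 1)) < δ := by
      rw [← mul_div_assoc, div_lt_iff₀ hM]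
      nlinarith
    linarith
  refine ⟨c, c', ?_, hbig⟩
  have hpos : 0 < ENNReal.ofReal (δ / ((I.card : ℝ) ^ 2 + 1)) :=
    ENNReal.ofReal_pos.2 (by positivity)
  have hne := (hpos.trans_le hbig).ne'
  obtain ⟨w, hw⟩ := nonempty_of_measure_ne_zero hne
  simp only [Set.mem_iUnion] at hw
  obtain ⟨x, hx, y, hy, hp⟩ := hw
  have h1 := pp_le hp
  rw [mem_cell] at hx hy
  have h2 := (hx i).1
  have h3 := (hy i).2
  unfold cor at h2 h3
  have h4 : (g : ℤ) * c i < g * (c' i + 1) := by linarith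
  have h5 : (c i : ℤ) < c' i + 1 := lt_of_mul_lt_mul_left h4 (by positivity)
  omega

theorem L1 : S_CON → S_SEL → S_GLUE → S_MEAS → S_L1 := by
  intro hCON hSEL hGLUE hMEAS d i hd ν _ κ δ C hκ hδ hfreq
  obtain ⟨K, hK, hKq⟩ := exists_K d ν
  obtain ⟨C1, g0, hC1⟩ := hCON d i hd
  obtain ⟨N, hN⟩ := exists_nat_ge (3 * K * C1 / κ + 1)
  have hN1 : 1 ≤ N := by
    have : (1 : ℝ) ≤ N := le_trans (by have := hκ; have : 0 ≤ 3 * K * C1 / κ := by positivity
                                       linarith) hN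
    exact_mod_cast this
  have hNκ : 3 * K * C1 ≤ N * κ := by
    have h1 : 3 * K * C1 / κ ≤ N := by linarith
    rwa [div_le_iff₀ hκ] at h1
  set M : ℝ := ((Fintype.piFinset fun _ : Fin d => range ((N + 1) * C)).card : ℝ) ^ 2 + 1 with hM
  have hM0 : 0 < M := by positivity
  refine ⟨3 * C1 + 4 * (N + 1) + 1, (δ / M) ^ 2 / 16, by positivity, ?_⟩
  rw [frequently_atTop]
  intro R0
  obtain ⟨t1, ht1⟩ := exists_nat_ge (K / κ)
  obtain ⟨t, ht, hlaw⟩ := (frequently_atTop.1 hfreq) (N * (g0 + N + R0 + 1) + t1)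
  set g := t / N with hg
  have hgge : g0 + N + R0 + 1 ≤ g := by
    rw [hg, Nat.le_div_iff_mul_le (by omega)]
    rw [mul_comm]; omega
  have htN : t ≤ (N + 1) * g := by
    have h1 : t < N * (t / N + 1) := Nat.lt_mul_div_succ t (by omega)
    rw [← hg] at h1
    nlinarith
  have hNt : N * g ≤ t := Nat.mul_div_le t N
  have hg1 : 1 ≤ g := by omega
  obtain ⟨c, c', hcc, hbig⟩ := pigeon (N := N) hg1 hδ htN hlaw
  rw [← hM] at hbig
  have hab : cor g c i ≤ cor g c' i := by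
    unfold cor
    exact mul_le_mul_of_nonneg_left (by exact_mod_cast hcc) (by positivity)
  have hk := key (a := cor g c) (b := cor g c') hSEL hGLUE hMEAS
    (fun x y h1 h2 => hC1 ν K hKq g (by omega) x y h1 h2)
    hK (half_le d ν K hKq) hg1 hκ.le _ hbig
  set R : ℕ := (2 * (cor g c' i - cor g c i) + 8 * g).toNat with hR
  have hRg : 8 * g ≤ R := by
    rw [hR]; omega
  refine ⟨R, by omega, ?_⟩
  have e1 : ENNReal.ofReal ((δ / M) ^ 2 / 16) =
      2⁻¹ * (2⁻¹ * ENNReal.ofReal (δ / M)) * (2⁻¹ * ENNReal.ofReal (δ / M) * 2⁻¹) := by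
    have e : (2⁻¹ : ℝ≥0∞) = ENNReal.ofReal (2⁻¹) := by
      rw [ENNReal.ofReal_inv_of_pos (by norm_num)]; simp
    rw [e, ← ENNReal.ofReal_mul (by positivity), ← ENNReal.ofReal_mul (by positivity),
      ← ENNReal.ofReal_mul (by positivity), ← ENNReal.ofReal_mul (by positivity)]
    congr 1
    ring
  rw [e1]
  refine hk.trans ?_
  -- translation to the origin
  set o := po i (cor g c) g with ho
  have hmY : MeasurableSet {w : V d → ℝ |
      YY (fun x => w x + κ) i (3 * C1 + 4 * (N + 1) + 1) R 0} := by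
    obtain ⟨-, -, -, -, m5, -, -⟩ := hMEAS d
    have h1 := m5 i (3 * C1 + 4 * (N + 1) + 1) R 0
    have h2 : Measurable fun (w : V d → ℝ) (x : V d) => w x + κ := by fun_prop
    exact h2 h1
  have hinj : Function.Injective fun x : V d => x + o := add_left_injective o
  rw [← law_pre ν (fun x => x + o) hinj _ hmY]
  refine measure_mono ?_
  rintro w ⟨l, ⟨h1, h2⟩, h3⟩
  have hf : ∀ x y : V d, ∀ j, |(y - o) j - (x - o) j| = |y j - x j| := by
    intro x y j
    rw [Pi.sub_apply, Pi.sub_apply, sub_sub_sub_cancel_right]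
  have hSB := SB_map (f := fun x : V d => x - o) (-(o i)) hf
    (fun x => by rw [Pi.sub_apply]; ring) h1
  have hz : pz i (cor g c) (cor g c') g - o = pt i (R : ℤ) := pz_po hab
  simp only [sub_self] at hSB
  rw [hz] at hSB
  refine ⟨_, hSB, ?_, ?_⟩
  · rw [List.length_map]
    refine h2.trans ?_
    calc 3 * (C1 * g) + 1 + 4 * t ≤ 3 * (C1 * g) + g + 4 * ((N + 1) * g) := by omega
      _ = (3 * C1 + 4 * (N + 1) + 1) * g := by ring
      _ ≤ _ := Nat.mul_le_mul_left _ (by omega)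
  · rw [wt_map]
    simp only [sub_add_cancel]
    refine le_trans ?_ h3
    have a1 : K ≤ κ * t := by
      have b1 : (t1 : ℝ) ≤ t := by exact_mod_cast (by omega : t1 ≤ t)
      have b2 : K / κ ≤ t := ht1.trans b1
      rwa [div_le_iff₀ hκ, mul_comm] at b2
    have a2 : (N : ℝ) * g ≤ t := by exact_mod_cast hNt
    have a3 : 3 * K * C1 * g ≤ N * κ * g := mul_le_mul_of_nonneg_right hNκ (by positivity)
    have a4 : κ * (N * g) ≤ κ * t := mul_le_mul_of_nonneg_left a2 hκ.le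
    push_cast
    nlinarith

end Pool.Agent.W692.GP
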