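import Pool.Agent.W844.GP.Defs

/-! Project GP of helper844: the doubling step (S_L1), preparations. -/

set_option autoImplicit false

open Finset MeasureTheory ProbabilityTheory Filter Topology
open scoped ENNReal

namespace Pool.Agent.W692.GP

open Pool.Agent.W844.GP
open Pool.Agent.W844.VG (V stp nm)

variable {d : ℕ}

instance instLaw (ν : Measure ℝ) [IsProbabilityMeasure ν] : IsProbabilityMeasure (law ν d) := by
  unfold law; infer_instance

theorem law_comp (ν : Measure ℝ) [IsProbabilityMeasure ν] (τ : V d → V d)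
    (hτ : Function.Injective τ) : (law ν d).map (fun w x => w (τ x)) = law ν d :=
  Measure.map_infinitePi_infinitePi_of_inj (P := fun _ : V d => ν) hτ

theorem law_pre (ν : Measure ℝ) [IsProbabilityMeasure ν] (τ : V d → V d)
    (hτ : Function.Injective τ) (E : Set (V d → ℝ)) (hE : MeasurableSet E) :
    law ν d {w | (fun x => w (τ x)) ∈ E} = law ν d E := by
  have hm : Measurable fun (w : V d → ℝ) (x : V d) => w (τ x) := by fun_prop
  conv_rhs => rw [← law_comp ν τ hτ, Measure.map_apply hm hE]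
  rfl

theorem law_eval (ν : Measure ℝ) [IsProbabilityMeasure ν] (z : V d) (S : Set ℝ)
    (hS : MeasurableSet S) : law ν d {w | w z ∈ S} = ν S := by
  have h := Measure.infinitePi_map_eval (μ := fun _ : V d => ν) z
  conv_rhs => rw [← h]
  rw [Measure.map_apply (measurable_pi_apply z) hS]
  rfl

/-- a long weak bridge from `x` to `y` with nonnegative weight -/
def pp (w : V d → ℝ) (i : Fin d) (t : ℕ) (x y : V d) : Prop :=
  ∃ l : List (V d), (WB i l x y ∧ t ≤ l.length ∧ l.length < 2 * t) ∧ 0 ≤ wt w l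

theorem wt_congr (w w' : V d → ℝ) (l : List (V d)) (h : ∀ z ∈ l, w z = w' z) :
    wt w l = wt w' l := by
  unfold wt; rw [List.map_congr_left h]

theorem pp_imp {w w' : V d → ℝ} {i : Fin d} {t : ℕ} {x y : V d}
    (h : ∀ z : V d, x i ≤ z i → z i ≤ y i → w z = w' z) (hp : pp w i t x y) : pp w' i t x y := by
  obtain ⟨l, hl, h0⟩ := hp
  refine ⟨l, hl, ?_⟩
  rwa [← wt_congr w w' l fun z hz => h z (hl.1.2.2.2 z hz).1 (hl.1.2.2.2 z hz).2]

theorem pp_le {w : V d → ℝ} {i : Fin d} {t : ℕ} {x y : V d} (hp : pp w i t x y) :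
    x i ≤ y i := by
  obtain ⟨l, hl, -⟩ := hp
  have h1 := hl.1.2.1
  have h2 : x ∈ l := by
    cases l with
    | nil => simp at h1
    | cons a l => simp at h1; simp [h1]
  exact (hl.1.2.2.2 x h2).2

theorem Con_imp {K : ℝ} {w w' : V d → ℝ} {i : Fin d} {n : ℕ} {x y : V d}
    (h : ∀ z : V d, x i < z i → z i < y i → w z ≤ w' z) (hp : Con K w i n x y) :
    Con K w' i n x y := by
  obtain ⟨h0, l, hl, hn, hz⟩ := hp
  refine ⟨h0, l, hl, hn, fun z hzl => ?_⟩
  obtain ⟨h1, h2, h3⟩ := hz z hzl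
  exact ⟨h1, h2, h3.trans (h z h1 h2)⟩

theorem adj_map {f : V d → V d} (hf : ∀ x y j, |f y j - f x j| = |y j - x j|) {x y : V d}
    (h : adj x y) : adj (f x) (f y) := by
  unfold adj at *
  rw [← h]
  exact Finset.sum_congr rfl fun j _ => hf x y j

theorem inj_of {f : V d → V d} (hf : ∀ x y j, |f y j - f x j| = |y j - x j|) :
    Function.Injective f := by
  intro x y h
  funext j
  have h1 := hf x y j
  rw [h, sub_self, abs_zero] at h1
  have h2 := abs_eq_zero.1 h1.symm
  omega

theorem isP_map {f : V d → V d} (hf : ∀ x y j, |f y j - f x j| = |y j - x j|)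
    {l : List (V d)} (h : IsP l) : IsP (l.map f) := by
  refine ⟨?_, h.2.map (inj_of hf)⟩
  rw [List.isChain_map]
  exact h.1.imp fun a b hab => adj_map hf hab

theorem wt_map (w : V d → ℝ) (f : V d → V d) (l : List (V d)) :
    wt w (l.map f) = wt (fun z => w (f z)) l := by
  unfold wt; rw [List.map_map]; rfl

theorem WB_map {i : Fin d} {f : V d → V d} (s : ℤ)
    (hf : ∀ x y j, |f y j - f x j| = |y j - x j|) (hi : ∀ x, f x i = x i + s)
    {l : List (V d)} {x y : V d} (h : WB i l x y) : WB i (l.map f) (f x) (f y) := by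
  obtain ⟨h1, h2, h3, h4⟩ := h
  refine ⟨isP_map hf h1, ?_, ?_, ?_⟩
  · rw [List.head?_map, h2]; rfl
  · rw [List.getLast?_map, h3]; rfl
  · intro z hz
    obtain ⟨u, hu, rfl⟩ := List.mem_map.1 hz
    have := h4 u hu
    rw [hi, hi, hi]
    omega

theorem SB_map {i : Fin d} {f : V d → V d} (s : ℤ)
    (hf : ∀ x y j, |f y j - f x j| = |y j - x j|) (hi : ∀ x, f x i = x i + s)
    {l : List (V d)} {x y : V d} (h : SB i l x y) : SB i (l.map f) (f x) (f y) := by
  obtain ⟨h1, h2, h4⟩ := h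
  refine ⟨?_, ?_, ?_⟩
  · rw [← List.map_cons]; exact isP_map hf h1
  · rw [← List.map_cons, List.getLast?_map, h2]; rfl
  · intro z hz
    obtain ⟨u, hu, rfl⟩ := List.mem_map.1 hz
    have := h4 u hu
    rw [hi, hi, hi]
    omega

theorem pp_map {w : V d → ℝ} {i : Fin d} {t : ℕ} {f : V d → V d} (s : ℤ)
    (hf : ∀ x y j, |f y j - f x j| = |y j - x j|) (hi : ∀ x, f x i = x i + s) {x y : V d}
    (h : pp (fun z => w (f z)) i t x y) : pp w i t (f x) (f y) := by
  obtain ⟨l, ⟨h1, h2, h3⟩, h0⟩ := h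
  exact ⟨l.map f, ⟨WB_map s hf hi h1, by simpa using h2, by simpa using h3⟩, by rwa [wt_map]⟩

theorem nm_le {x : V d} {n : ℕ} (h : ∀ j, |x j| ≤ n) : nm x ≤ n := by
  unfold nm
  refine Finset.sup_le fun j _ => ?_
  have := h j
  rw [Int.abs_eq_natAbs] at this
  omega

end Pool.Agent.W692.GP
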