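import Pool.Agent.W692.GP.L1a

/-! Project GP of helper844: the doubling step (S_L1), one scale. -/

set_option autoImplicit false

open Finset MeasureTheory ProbabilityTheory Filter Topology
open scoped ENNReal

namespace Pool.Agent.W692.GP

open Pool.Agent.W844.GP
open Pool.Agent.W844.VG (V stp nm)

variable {d : ℕ}

/-- vertices of the cell `a + [0, g)^d` -/
noncomputable def cell (a : V d) (g : ℕ) : Finset (V d) := Fintype.piFinset fun j => Ico (a j) (a j + g)

theorem mem_cell {a x : V d} {g : ℕ} : x ∈ cell a g ↔ ∀ j, a j ≤ x j ∧ x j < a j + g := by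
  unfold cell
  simp [Fintype.mem_piFinset]

/-- lower end -/
def po (i : Fin d) (a : V d) (g : ℕ) : V d := fun j => if j = i then a j - 2 * g else a j

/-- upper end -/
def pz (i : Fin d) (a b : V d) (g : ℕ) : V d :=
  fun j => if j = i then 2 * b j - a j + 6 * g else a j

/-- lateral reflection -/
def th (i : Fin d) (a b : V d) (g : ℕ) (z : V d) : V d :=
  fun j => if j = i then z j + (b j - a j + 3 * g) else a j + b j - z j

theorem th_iso (i : Fin d) (a b : V d) (g : ℕ) (x y : V d) (j : Fin d) :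
    |th i a b g y j - th i a b g x j| = |y j - x j| := by
  unfold th
  by_cases h : j = i
  · simp [h]
  · simp only [h, if_false]
    rw [show a j + b j - y j - (a j + b j - x j) = -(y j - x j) by ring, abs_neg]

theorem th_i (i : Fin d) (a b : V d) (g : ℕ) (x : V d) :
    th i a b g x i = x i + (b i - a i + 3 * g) := by
  simp [th]

section

variable {i : Fin d} {ν : Measure ℝ} [IsProbabilityMeasure ν] {K : ℝ} {n g t : ℕ} {a b : V d}

theorem near1 {x : V d} (hx : x ∈ cell a g) :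
    (po i a g) i + g ≤ x i ∧ nm (x - po i a g) ≤ 16 * g := by
  rw [mem_cell] at hx
  constructor
  · have := hx i
    simp only [po, if_true]
    omega
  · refine nm_le fun j => ?_
    have := hx j
    rw [Pi.sub_apply, abs_le]
    unfold po
    by_cases h : j = i
    · simp only [h, if_true] at *; push_cast; omega
    · simp only [h, if_false]; push_cast; omega

theorem near2 {y x : V d} (hy : y ∈ cell b g) (hx : x ∈ cell a g) :
    y i + g ≤ th i a b g x i ∧ nm (th i a b g x - y) ≤ 16 * g := by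
  rw [mem_cell] at hx hy
  constructor
  · have h1 := hx i
    have h2 := hy i
    rw [th_i]
    omega
  · refine nm_le fun j => ?_
    have h1 := hx j
    have h2 := hy j
    rw [Pi.sub_apply, abs_le]
    unfold th
    by_cases h : j = i
    · simp only [h, if_true] at *; push_cast; omega
    · simp only [h, if_false]; push_cast; omega

theorem near3 {y : V d} (hy : y ∈ cell b g) :
    th i a b g y i + g ≤ pz i a b g i ∧ nm (pz i a b g - th i a b g y) ≤ 16 * g := by
  rw [mem_cell] at hy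
  constructor
  · have h2 := hy i
    rw [th_i]
    simp only [pz, if_true]
    omega
  · refine nm_le fun j => ?_
    have h2 := hy j
    rw [Pi.sub_apply, abs_le]
    unfold th pz
    by_cases h : j = i
    · simp only [h, if_true] at *; push_cast; omega
    · simp only [h, if_false]; push_cast; omega

theorem pz_po (hab : a i ≤ b i) :
    pz i a b g - po i a g = pt i ((2 * (b i - a i) + 8 * g).toNat : ℕ) := by
  funext j
  rw [Pi.sub_apply]
  unfold pz po pt
  by_cases h : j = i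
  · subst h
    simp only [if_true, Pi.single_eq_same]
    omega
  · simp only [h, if_false, Pi.single_eq_of_ne h]
    omega

/-- the connected pair of bridges -/
theorem glued (hGLUE : S_GLUE) (hK : 0 ≤ K) {κ : ℝ} (hκ : 0 ≤ κ) {w : V d → ℝ}
    {o x y x' y' z : V d} (h1 : Con K w i n o x) (h2 : pp w i t x y) (h3 : Con K w i n y x')
    (h4 : pp w i t x' y') (h5 : Con K w i n y' z) (h6 : -K ≤ w z) :
    ∃ l, SB i l o z ∧ l.length ≤ 3 * n + 1 + 4 * t ∧
      2 * κ * t - K * (3 * n + 1) ≤ wt (fun x => w x + κ) l := by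
  obtain ⟨l₁, ⟨h21, h22, h23⟩, h24⟩ := h2
  obtain ⟨l₂, ⟨h41, h42, h43⟩, h44⟩ := h4
  have hw : ∀ z, w z ≤ w z + κ := fun z => by linarith
  obtain ⟨l, g1, g2, g3⟩ := hGLUE d i (fun x => w x + κ) K n o x y x' y' z l₁ l₂ hK
    (Con_imp (fun z _ _ => hw z) h1) h21 (Con_imp (fun z _ _ => hw z) h3) h41
    (Con_imp (fun z _ _ => hw z) h5) (h6.trans (hw z))
  have e : ∀ l : List (V d), wt (fun x => w x + κ) l = wt w l + l.length * κ := by
    intro l
    unfold wt
    induction l with
    | nil => simp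
    | cons a l ih => simp only [List.map_cons, List.sum_cons, ih, List.length_cons]; push_cast; ring
  refine ⟨l, g1, by omega, ?_⟩
  rw [e l₁, e l₂] at g3
  have e1 : (t : ℝ) ≤ l₁.length := by exact_mod_cast h22
  have e2 : (t : ℝ) ≤ l₂.length := by exact_mod_cast h42
  nlinarith

theorem key (hSEL : S_SEL) (hGLUE : S_GLUE) (hMEAS : S_MEAS)
    (hCON : ∀ x y : V d, x i + g ≤ y i → nm (y - x) ≤ 16 * g →
      2⁻¹ ≤ law ν d {w | Con K w i n x y})
    (hK : 0 ≤ K) (hKν : 2⁻¹ ≤ ν (Set.Ici (-K))) (hg : 1 ≤ g) {κ : ℝ} (hκ : 0 ≤ κ)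
    (d1 : ℝ≥0∞) (hd1 : d1 ≤ law ν d (⋃ x ∈ cell a g, ⋃ y ∈ cell b g, {w | pp w i t x y})) :
    2⁻¹ * (2⁻¹ * d1) * (2⁻¹ * d1 * 2⁻¹) ≤ law ν d {w | ∃ l, (SB i l (po i a g) (pz i a b g) ∧
      l.length ≤ 3 * n + 1 + 4 * t) ∧ 2 * κ * t - K * (3 * n + 1) ≤ wt (fun x => w x + κ) l} := by
  obtain ⟨m1, -, -, m4, -, -, -⟩ := hMEAS d
  have mpp : ∀ x y : V d, MeasurableSet {w : V d → ℝ | pp w i t x y} := fun x y =>
    m1 (fun l => WB i l x y ∧ t ≤ l.length ∧ l.length < 2 * t) 0
  have mCon : ∀ x y : V d, MeasurableSet {w : V d → ℝ | Con K w i n x y} := fun x y => m4 K i n x y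
  set o := po i a g with ho
  set zz := pz i a b g with hzz
  set Θ := th i a b g with hΘ
  have hΘi : ∀ x, Θ x i = x i + (b i - a i + 3 * g) := th_i i a b g
  have hΘiso := th_iso i a b g
  have hΘinj : Function.Injective Θ := inj_of hΘiso
  have hgz : (1 : ℤ) ≤ g := by exact_mod_cast hg
  -- step 1
  let U1 : V d → Set (V d → ℝ) := fun x => ⋃ y ∈ cell b g, {w | pp w i t x y}
  let N : V d → V d → Set (V d → ℝ) := fun y x => {w | Con K w i n y x}
  have hN : ∀ y x : V d, y i + g ≤ x i → nm (x - y) ≤ 16 * g → y i < x i ∧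
      MeasurableSet (N y x) ∧ DependsOn (fun w => w ∈ N y x) {z | y i < z i ∧ z i < x i} ∧
      2⁻¹ ≤ law ν d (N y x) := by
    intro y x h1 h2
    refine ⟨by omega, mCon y x, ?_, hCON y x h1 h2⟩
    intro w w' h
    exact propext ⟨fun h3 => Con_imp (fun z h4 h5 => (h z ⟨h4, h5⟩).le) h3,
      fun h3 => Con_imp (fun z h4 h5 => (h z ⟨h4, h5⟩).ge) h3⟩
  have mU1 : ∀ x, MeasurableSet (U1 x) := fun x =>
    (cell b g).measurableSet_biUnion fun y _ => mpp x y
  have s1 := hSEL d i ν {o} (cell a g) (fun _ => Set.univ) U1 N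
    (fun y _ => ⟨MeasurableSet.univ, fun w w' _ => rfl⟩)
    (fun x _ => ⟨mU1 x, by
      intro w w' h
      have key : ∀ w w' : V d → ℝ, (∀ z : V d, x i ≤ z i → w z = w' z) → w ∈ U1 x →
          w' ∈ U1 x := by
        intro w w' h h3
        simp only [U1, Set.mem_iUnion, Set.mem_ofPred_eq] at h3 ⊢
        obtain ⟨y, hy, h4⟩ := h3
        exact ⟨y, hy, pp_imp (fun z h5 _ => h z h5) h4⟩
      exact propext ⟨key w w' fun z hz => h z hz, key w' w fun z hz => (h z hz).symm⟩⟩)
    (fun y hy x hx => by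
      rw [Finset.mem_singleton] at hy
      subst hy
      have := near1 (i := i) hx
      exact hN _ _ this.1 this.2)
  simp only [Finset.mem_singleton, Set.iUnion_iUnion_eq_left, Set.univ_inter, measure_univ,
    mul_one] at s1
  have s1' : 2⁻¹ * d1 ≤ law ν d (⋃ x ∈ cell a g, N o x ∩ U1 x) :=
    (mul_le_mul_right hd1 _).trans s1
  -- step 2
  let D2 : V d → Set (V d → ℝ) := fun y' => ⋃ x ∈ cell a g, {w | pp w i t (Θ x) y'}
  let Uz : Set (V d → ℝ) := {w | -K ≤ w zz}
  have mD2 : ∀ y', MeasurableSet (D2 y') := fun y' =>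
    (cell a g).measurableSet_biUnion fun x _ => mpp (Θ x) y'
  have mUz : MeasurableSet Uz := measurableSet_le measurable_const (measurable_pi_apply zz)
  have s2 := hSEL d i ν ((cell b g).image Θ) {zz} D2 (fun _ => Uz) N
    (fun y' hy' => ⟨mD2 y', by
      have key : ∀ w w' : V d → ℝ, (∀ z : V d, z i ≤ y' i → w z = w' z) → w ∈ D2 y' →
          w' ∈ D2 y' := by
        intro w w' h h3
        simp only [D2, Set.mem_iUnion, Set.mem_ofPred_eq] at h3 ⊢
        obtain ⟨x, hx, h4⟩ := h3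
        exact ⟨x, hx, pp_imp (fun z _ h5 => h z h5) h4⟩
      intro w w' h
      exact propext ⟨key w w' fun z hz => h z hz, key w' w fun z hz => (h z hz).symm⟩⟩)
    (fun x hx => ⟨mUz, by
      rw [Finset.mem_singleton] at hx
      subst hx
      intro w w' h
      have h2 := h zz (show zz i ≤ zz i from le_rfl)
      show (-K ≤ w zz) = (-K ≤ w' zz)
      rw [h2]⟩)
    (fun y hy x hx => by
      rw [Finset.mem_singleton] at hx
      subst hx
      obtain ⟨y0, hy0, rfl⟩ := Finset.mem_image.1 hy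
      have := near3 (i := i) (a := a) hy0
      exact hN _ _ this.1 this.2)
  simp only [Finset.mem_singleton, Set.iUnion_iUnion_eq_left] at s2
  have hz : 2⁻¹ ≤ law ν d Uz := by
    have h := law_eval ν zz (Set.Ici (-K)) measurableSet_Ici
    rw [← h] at hKν
    exact hKν
  have hD2 : d1 ≤ law ν d (⋃ y' ∈ (cell b g).image Θ, D2 y') := by
    have h1 : law ν d (⋃ x ∈ cell a g, ⋃ y ∈ cell b g, {w | pp w i t x y}) =
        law ν d {w | (fun x => w (Θ x)) ∈
          (⋃ x ∈ cell a g, ⋃ y ∈ cell b g, {w | pp w i t x y})} := by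
      refine (law_pre ν Θ hΘinj _ ?_).symm
      exact (cell a g).measurableSet_biUnion fun x _ => mU1 x
    refine hd1.trans (h1.le.trans (measure_mono ?_))
    intro w hw
    simp only [Set.mem_iUnion, Set.mem_ofPred_eq] at hw
    obtain ⟨x, hx, y, hy, h2⟩ := hw
    simp only [D2, Set.mem_iUnion, Set.mem_ofPred_eq]
    exact ⟨Θ y, Finset.mem_image_of_mem _ hy, x, hx, pp_map _ hΘiso hΘi h2⟩
  have s2' : 2⁻¹ * d1 * 2⁻¹ ≤ law ν d (⋃ y' ∈ (cell b g).image Θ, D2 y' ∩ N y' zz ∩ Uz) :=
    (mul_le_mul' (mul_le_mul_right hD2 _) hz).trans s2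
  -- step 3
  let D3 : V d → Set (V d → ℝ) := fun y => ⋃ x ∈ cell a g, {w | pp w i t x y} ∩ N o x
  let U3 : V d → Set (V d → ℝ) := fun x' =>
    ⋃ y' ∈ (cell b g).image Θ, {w | pp w i t x' y'} ∩ (N y' zz ∩ Uz)
  have mD3 : ∀ y, MeasurableSet (D3 y) := fun y =>
    (cell a g).measurableSet_biUnion fun x _ => (mpp x y).inter (mCon o x)
  have mU3 : ∀ x', MeasurableSet (U3 x') := fun x' =>
    ((cell b g).image Θ).measurableSet_biUnion fun y' _ =>
      (mpp x' y').inter ((mCon y' zz).inter mUz)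
  have s3 := hSEL d i ν (cell b g) ((cell a g).image Θ) D3 U3 N
    (fun y hy => ⟨mD3 y, by
      have key : ∀ w w' : V d → ℝ, (∀ z : V d, z i ≤ y i → w z = w' z) → w ∈ D3 y →
          w' ∈ D3 y := by
        intro w w' h h3
        simp only [D3, Set.mem_iUnion] at h3 ⊢
        obtain ⟨x, hx, h4, h6⟩ := h3
        have hle := pp_le h4
        refine ⟨x, hx, pp_imp (fun z _ h5 => h z h5) h4, Con_imp (fun z _ h5 => ?_) h6⟩
        exact (h z (h5.le.trans hle)).le
      intro w w' h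
      exact propext ⟨key w w' fun z hz => h z hz, key w' w fun z hz => (h z hz).symm⟩⟩)
    (fun x' hx' => ⟨mU3 x', by
      have key : ∀ w w' : V d → ℝ, (∀ z : V d, x' i ≤ z i → w z = w' z) → w ∈ U3 x' →
          w' ∈ U3 x' := by
        intro w w' h h3
        simp only [U3, Set.mem_iUnion] at h3 ⊢
        obtain ⟨y', hy', h4, h6, h7⟩ := h3
        have hle := pp_le h4
        refine ⟨y', hy', pp_imp (fun z h5 _ => h z h5) h4, Con_imp (fun z h5 _ => ?_) h6, ?_⟩
        · exact (h z (hle.trans h5.le)).le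
        · have h8 : y' i < zz i := h6.1
          show -K ≤ w' zz
          rw [← h zz (hle.trans h8.le)]
          exact h7
      intro w w' h
      exact propext ⟨key w w' fun z hz => h z hz, key w' w fun z hz => (h z hz).symm⟩⟩)
    (fun y hy x hx => by
      obtain ⟨x0, hx0, rfl⟩ := Finset.mem_image.1 hx
      have := near2 (i := i) hy hx0
      exact hN _ _ this.1 this.2)
  have e1 : (⋃ x ∈ cell a g, N o x ∩ U1 x) ⊆ ⋃ y ∈ cell b g, D3 y := by
    intro w hw
    simp only [U1, Set.mem_iUnion, Set.mem_inter_iff, Set.mem_ofPred_eq] at hw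
    obtain ⟨x, hx, h1, y, hy, h2⟩ := hw
    simp only [D3, Set.mem_iUnion]
    exact ⟨y, hy, x, hx, h2, h1⟩
  have e2 : (⋃ y' ∈ (cell b g).image Θ, D2 y' ∩ N y' zz ∩ Uz) ⊆
      ⋃ x' ∈ (cell a g).image Θ, U3 x' := by
    intro w hw
    simp only [D2, Set.mem_iUnion, Set.mem_inter_iff, Set.mem_ofPred_eq] at hw
    obtain ⟨y', hy', ⟨⟨x, hx, h1⟩, h2⟩, h3⟩ := hw
    simp only [U3, Set.mem_iUnion]
    exact ⟨Θ x, Finset.mem_image_of_mem _ hx, y', hy', h1, h2, h3⟩
  have s3' := (mul_le_mul' (mul_le_mul_right (s1'.trans (measure_mono e1)) _)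
    (s2'.trans (measure_mono e2))).trans s3
  refine s3'.trans (measure_mono ?_)
  intro w hw
  simp only [D3, U3, Set.mem_iUnion, Set.mem_inter_iff] at hw
  obtain ⟨y, hy, x', hx', ⟨⟨x, hx, h1, h2⟩, h3⟩, y', hy', h4, h5, h6⟩ := hw
  obtain ⟨l, g1, g2, g3⟩ := glued hGLUE hK hκ h2 h1 h3 h4 h5 h6
  exact ⟨l, ⟨g1, g2⟩, g3⟩

end

end Pool.Agent.W692.GP
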